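import Pool.Agent.H10.FEW.Stmts

/-!
# FEW, module MOD: many pairwise coprime moduli, each with many primes
-/

set_option autoImplicit false

namespace Pool.FEW

open Finset Pool.Agent.H98.ABCR Pool.SHA

namespace MOD50

/-- the part of `n` with primes at least `k0` -/
def rgh (k0 n : ℕ) : ℕ := ∏ p ∈ n.primeFactors.filter (fun p => ¬ p < k0), p ^ n.factorization p

theorem smp_mul_rgh (k0 : ℕ) {n : ℕ} (hn : n ≠ 0) : smp k0 n * rgh k0 n = n := by
  unfold smp rgh
  rw [Finset.prod_filter_mul_prod_filter_not]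
  exact Nat.prod_factorization_pow_eq_self hn

theorem smp_pos (k0 n : ℕ) : 1 ≤ smp k0 n := by
  unfold smp
  refine Finset.one_le_prod' fun p hp => ?_
  exact Nat.one_le_pow _ _ (Nat.prime_of_mem_primeFactors (Finset.mem_filter.mp hp).1).pos

theorem rgh_pos (k0 n : ℕ) : 1 ≤ rgh k0 n := by
  unfold rgh
  refine Finset.one_le_prod' fun p hp => ?_
  exact Nat.one_le_pow _ _ (Nat.prime_of_mem_primeFactors (Finset.mem_filter.mp hp).1).pos

theorem rgh_prime {k0 n q : ℕ} (hq : q.Prime) (h : q ∣ rgh k0 n) : k0 ≤ q := by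
  unfold rgh at h
  obtain ⟨p, hp, hqp⟩ := (Prime.dvd_finsetProd_iff hq.prime _).mp h
  rw [Finset.mem_filter] at hp
  have h1 : q ∣ p := hq.dvd_of_dvd_pow hqp
  rw [(Nat.prime_dvd_prime_iff_eq hq (Nat.prime_of_mem_primeFactors hp.1)).mp h1]
  exact not_lt.mp hp.2

theorem smp_mono (k0 : ℕ) {m n : ℕ} (h : m ∣ n) (hn : n ≠ 0) : smp k0 m ≤ smp k0 n := by
  unfold smp
  have hs : m.primeFactors.filter (fun p => p < k0) ⊆ n.primeFactors.filter (fun p => p < k0) :=
    Finset.filter_subset_filter _ (Nat.primeFactors_mono h hn)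
  have h2 : ∀ p ∈ n.primeFactors.filter (fun p => p < k0), 1 ≤ p ^ n.factorization p :=
    fun p hp => Nat.one_le_pow _ _
      (Nat.prime_of_mem_primeFactors (Finset.mem_filter.mp hp).1).pos
  have hm : m ≠ 0 := fun h0 => hn (Nat.eq_zero_of_zero_dvd (h0 ▸ h))
  calc ∏ p ∈ m.primeFactors.filter (fun p => p < k0), p ^ m.factorization p
      ≤ ∏ p ∈ m.primeFactors.filter (fun p => p < k0), p ^ n.factorization p := by
        refine Finset.prod_le_prod' fun p hp => ?_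
        exact Nat.pow_le_pow_right
          (Nat.prime_of_mem_primeFactors (Finset.mem_filter.mp hp).1).pos
          ((Nat.factorization_le_iff_dvd hm hn).mpr h p)
    _ ≤ _ := Finset.prod_le_prod_of_subset_of_one_le' hs fun p hp _ => h2 p hp

/-- the number of prime factors -/
theorem pf_card {k0 n : ℕ} (hn : n ≠ 0) (h : ∀ q : ℕ, q.Prime → q ∣ n → k0 ≤ q) :
    k0 ^ n.primeFactors.card ≤ n := by
  calc k0 ^ n.primeFactors.card = ∏ _p ∈ n.primeFactors, k0 := by
        rw [Finset.prod_const]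
    _ ≤ ∏ p ∈ n.primeFactors, p := Finset.prod_le_prod' fun p hp =>
        h p (Nat.prime_of_mem_primeFactors hp) (Nat.dvd_of_mem_primeFactors hp)
    _ ≤ n := Nat.le_of_dvd (Nat.pos_of_ne_zero hn) (Nat.prod_primeFactors_dvd n)

/-- a maximal pairwise coprime family -/
theorem maxfam (R : Finset ℕ) : ∃ E ⊆ R, (∀ e ∈ E, ∀ e' ∈ E, e ≠ e' → e.Coprime e') ∧
    ∀ r ∈ R, r ∉ E → ∃ e' ∈ E, ¬ r.Coprime e' := by
  classical
  obtain ⟨E, hE, hmax⟩ := Finset.exists_max_image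
    (R.powerset.filter (fun E => ∀ e ∈ E, ∀ e' ∈ E, e ≠ e' → e.Coprime e')) Finset.card
    ⟨∅, by simp⟩
  rw [Finset.mem_filter, Finset.mem_powerset] at hE
  refine ⟨E, hE.1, hE.2, fun r hr hrE => ?_⟩
  by_contra hcon
  push Not at hcon
  have h1 : insert r E ∈
      R.powerset.filter (fun E => ∀ e ∈ E, ∀ e' ∈ E, e ≠ e' → e.Coprime e') := by
    rw [Finset.mem_filter, Finset.mem_powerset]
    refine ⟨Finset.insert_subset hr hE.1, ?_⟩
    intro e he e' he' hne
    rcases Finset.mem_insert.mp he with h3 | h3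
    · rcases Finset.mem_insert.mp he' with h4 | h4
      · exact absurd (h3.trans h4.symm) hne
      · rw [h3]
        exact hcon e' h4
    · rcases Finset.mem_insert.mp he' with h4 | h4
      · rw [h4]
        exact (hcon e h3).symm
      · exact hE.2 e h3 e' h4 hne
  have h2 := hmax _ h1
  rw [Finset.card_insert_of_notMem hrE] at h2
  omega

/-- the number of `l` with `q ∣ l - 1` -/
theorem dvd_card (L : Finset ℕ) (N q : ℕ) (hL : ∀ l ∈ L, 2 ≤ l ∧ l ≤ N) :
    (L.filter (fun l => q ∣ l - 1)).card ≤ N / q := by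
  classical
  rw [← Nat.Ioc_filter_dvd_card_eq_div N q]
  refine Finset.card_le_card_of_injOn (fun l => l - 1) (fun l hl => ?_) ?_
  · rw [Finset.mem_coe, Finset.mem_filter] at hl
    have h1 := hL l hl.1
    rw [Finset.mem_coe, Finset.mem_filter, Finset.mem_Ioc]
    exact ⟨⟨(by omega : 0 < l - 1), (by omega : l - 1 ≤ N)⟩, hl.2⟩
  · intro l hl l' hl' h
    rw [Finset.mem_coe, Finset.mem_filter] at hl hl'
    have := hL l hl.1
    have := hL l' hl'.1
    simp only at h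
    omega

/-- Markov -/
theorem markov {S T : Finset ℕ} {f : ℕ → ℝ} {t : ℝ} (hT : T ⊆ S) (hf : ∀ l ∈ S, 0 ≤ f l)
    (h : ∀ l ∈ T, t ≤ f l) : (T.card : ℝ) * t ≤ ∑ l ∈ S, f l := by
  calc (T.card : ℝ) * t = ∑ _l ∈ T, t := by rw [Finset.sum_const, nsmul_eq_mul]
    _ ≤ ∑ l ∈ T, f l := Finset.sum_le_sum h
    _ ≤ _ := Finset.sum_le_sum_of_subset_of_nonneg hT fun l hl _ => hf l hl

/-- the main step -/
theorem core {c C s t y : ℝ} {L0 : Finset ℕ} (hc : 0 < c) (hC : 0 < C) (hs : 0 < s)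
    (hs5 : s ≤ 1 / 5) (ht : 0 < t) (ht2 : t ≤ s / 4) (ht3 : t * (512 * C) ≤ c * s)
    (hy : 90 ≤ y) (h1 : 3 ≤ y ^ t) (h2 : 2 ≤ y ^ (1 / 20 - t)) (h3 : 10 ≤ y ^ (s / 4))
    (h4 : 64 * Real.log y ≤ c * y ^ (s / 8)) (h5 : 32 * Real.log y < c * t * y ^ (t / 2))
    (hL0 : c * y / Real.log y ≤ (L0.card : ℝ))
    (hL : ∀ l ∈ L0, l.Prime ∧ y ≤ 9 * (l : ℝ) ∧ (l : ℝ) ≤ 8 * y ∧
      ∃ r : ℕ, r.Prime ∧ y ^ (s / 4) < r ∧ (r : ℝ) ≤ y ^ (s / 2) ∧ r ∣ l - 1)
    (hS : ∀ k0 : ℕ, 3 ≤ k0 → (k0 : ℝ) ≤ (8 * y) ^ (1 / 20 : ℝ) →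
      ∑ l ∈ (Icc 2 ⌊8 * y⌋₊).filter Nat.Prime, Real.log (smp k0 (l - 1)) ≤
        C * (8 * y) / Real.log (8 * y) * Real.log k0) :
    ∃ E : Finset ℕ, y ^ (t / 2) ≤ (E.card : ℝ) ∧
      (∀ e ∈ E, ∀ e' ∈ E, e ≠ e' → e.Coprime e') ∧
      ∀ e ∈ E, y ^ (1 - s) ≤ (e : ℝ) ∧ ∃ L : Finset ℕ, y ^ (t / 2) ≤ (L.card : ℝ) ∧
        ∀ l ∈ L, l.Prime ∧ e ∣ l - 1 ∧ y ≤ 9 * (l : ℝ) ∧ (l : ℝ) ≤ 8 * y := by
  classical
  have hy0 : 0 < y := by linarith
  have hy1 : 1 < y := by linarith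
  have hlog : 0 < Real.log y := Real.log_pos hy1
  obtain ⟨k0, hk0⟩ : ∃ k0, k0 = ⌈y ^ t⌉₊ := ⟨_, rfl⟩
  have hk1 : y ^ t ≤ (k0 : ℝ) := hk0 ▸ Nat.le_ceil _
  have hk2 : (k0 : ℝ) ≤ 2 * y ^ t := by
    have := Nat.ceil_lt_add_one (show 0 ≤ y ^ t by linarith)
    rw [← hk0] at this
    linarith
  have hk3 : 3 ≤ k0 := by
    have : (3 : ℝ) ≤ (k0 : ℝ) := h1.trans hk1
    exact_mod_cast this
  have hkR : (0 : ℝ) < (k0 : ℝ) := by linarith [h1.trans hk1]
  have hk4 : (k0 : ℝ) ≤ (8 * y) ^ (1 / 20 : ℝ) := by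
    have e1 : y ^ (1 / 20 : ℝ) = y ^ (1 / 20 - t) * y ^ t := by
      rw [← Real.rpow_add hy0]
      congr 1
      ring
    have e2 : y ^ (1 / 20 : ℝ) ≤ (8 * y) ^ (1 / 20 : ℝ) :=
      Real.rpow_le_rpow hy0.le (by linarith) (by norm_num)
    have e3 : 2 * y ^ t ≤ y ^ (1 / 20 - t) * y ^ t :=
      mul_le_mul_of_nonneg_right h2 (by linarith)
    linarith
  have hk5 : Real.log k0 ≤ 2 * t * Real.log y := by
    have e1 : (k0 : ℝ) ≤ y ^ (2 * t) := by
      rw [two_mul, Real.rpow_add hy0]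
      refine hk2.trans (mul_le_mul_of_nonneg_right (by linarith) (by linarith))
    calc Real.log k0 ≤ Real.log (y ^ (2 * t)) := Real.log_le_log hkR e1
      _ = 2 * t * Real.log y := Real.log_rpow hy0 _
  have hk6 : t * Real.log y ≤ Real.log k0 := by
    rw [← Real.log_rpow hy0]
    exact Real.log_le_log (by linarith) hk1
  have hsum := hS k0 hk3 hk4
  -- the bad primes
  obtain ⟨B, hB⟩ : ∃ B, B = L0.filter (fun l => y ^ (s / 4) < (smp k0 (l - 1) : ℝ)) := ⟨_, rfl⟩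
  obtain ⟨L1, hL1⟩ : ∃ L1, L1 = L0.filter (fun l => ¬ y ^ (s / 4) < (smp k0 (l - 1) : ℝ)) :=
    ⟨_, rfl⟩
  have hcard1 : B.card + L1.card = L0.card := by
    rw [hB, hL1]
    exact Finset.card_filter_add_card_filter_not _
  have hBc : (B.card : ℝ) * Real.log y ≤ c / 8 * y := by
    have e1 : (B.card : ℝ) * (s / 4 * Real.log y) ≤
        ∑ l ∈ (Icc 2 ⌊8 * y⌋₊).filter Nat.Prime, Real.log (smp k0 (l - 1)) := by
      refine markov (fun l hl => ?_) (fun l _ => ?_) (fun l hl => ?_)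
      · rw [hB, Finset.mem_filter] at hl
        obtain ⟨hp, -, h8, -⟩ := hL l hl.1
        rw [Finset.mem_filter, Finset.mem_Icc]
        exact ⟨⟨hp.two_le, Nat.le_floor h8⟩, hp⟩
      · exact Real.log_nonneg (by exact_mod_cast smp_pos _ _)
      · rw [hB, Finset.mem_filter] at hl
        rw [← Real.log_rpow hy0]
        exact Real.log_le_log (by linarith) hl.2.le
    have e2 : C * (8 * y) / Real.log (8 * y) * Real.log k0 ≤
        C * (8 * y) / Real.log y * (2 * t * Real.log y) := by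
      refine mul_le_mul ?_ hk5 (Real.log_nonneg (by linarith [h1.trans hk1])) (by positivity)
      exact div_le_div_of_nonneg_left (by positivity) hlog
        (Real.log_le_log hy0 (by linarith))
    have e3 : C * (8 * y) / Real.log y * (2 * t * Real.log y) = 16 * C * t * y := by
      field_simp
      ring
    have e4 : (B.card : ℝ) * (s / 4 * Real.log y) ≤ 16 * C * t * y := by linarith
    have e5 : 512 * C * t * y ≤ c * s * y := by
      have := mul_le_mul_of_nonneg_right ht3 hy0.le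
      linarith
    have e6 : s * ((B.card : ℝ) * Real.log y) ≤ s * (c / 8 * y) := by linarith
    exact le_of_mul_le_mul_left e6 hs
  -- the modulus of `l`
  have hch : ∀ l : ℕ, ∃ r : ℕ, l ∈ L0 → r.Prime ∧ y ^ (s / 4) < r ∧ (r : ℝ) ≤ y ^ (s / 2) ∧
      r ∣ l - 1 := by
    intro l
    by_cases h : l ∈ L0
    · obtain ⟨-, -, -, r, hr⟩ := hL l h
      exact ⟨r, fun _ => hr⟩
    · exact ⟨0, fun h' => absurd h' h⟩
  choose sl hsl using hch
  obtain ⟨ef, hef⟩ : ∃ ef : ℕ → ℕ, ∀ l, ef l = rgh k0 ((l - 1) / sl l) := ⟨_, fun _ => rfl⟩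
  have hL1' : ∀ l ∈ L1, l ∈ L0 := fun l hl => by
    rw [hL1, Finset.mem_filter] at hl
    exact hl.1
  have hdiv : ∀ l ∈ L1, ef l ∣ l - 1 := by
    intro l hl
    obtain ⟨hp, h9, h8, -⟩ := hL l (hL1' l hl)
    obtain ⟨hr, hr1, hr2, hr3⟩ := hsl l (hL1' l hl)
    have hm : (l - 1) / sl l ≠ 0 := by
      have := Nat.div_pos (Nat.le_of_dvd (by have := hp.two_le; omega) hr3) hr.pos
      omega
    have h6 : ef l ∣ (l - 1) / sl l := by
      rw [hef]
      exact Dvd.intro_left _ (smp_mul_rgh k0 hm)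
    exact h6.trans (Nat.div_dvd_of_dvd hr3)
  have hlow : ∀ l ∈ L1, y ^ (1 - s) ≤ (ef l : ℝ) := by
    intro l hl
    obtain ⟨hp, h9, h8, -⟩ := hL l (hL1' l hl)
    obtain ⟨hr, hr1, hr2, hr3⟩ := hsl l (hL1' l hl)
    have hl1 : l - 1 ≠ 0 := by have := hp.two_le; omega
    have hm : (l - 1) / sl l ≠ 0 := by
      have := Nat.div_pos (Nat.le_of_dvd (by omega) hr3) hr.pos
      omega
    have e1 : l - 1 = sl l * (smp k0 ((l - 1) / sl l) * ef l) := by
      rw [hef, smp_mul_rgh k0 hm, Nat.mul_div_cancel' hr3]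
    have e2 : (smp k0 ((l - 1) / sl l) : ℝ) ≤ y ^ (s / 4) := by
      have e3 : smp k0 ((l - 1) / sl l) ≤ smp k0 (l - 1) :=
        smp_mono k0 (Nat.div_dvd_of_dvd hr3) hl1
      have e4 : (smp k0 (l - 1) : ℝ) ≤ y ^ (s / 4) := by
        rw [hL1, Finset.mem_filter] at hl
        exact not_lt.mp hl.2
      exact (Nat.cast_le.mpr e3).trans e4
    have e5 : (l : ℝ) - 1 = (sl l : ℝ) * ((smp k0 ((l - 1) / sl l) : ℝ) * (ef l : ℝ)) := by
      have : ((l - 1 : ℕ) : ℝ) = (l : ℝ) - 1 := by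
        rw [Nat.cast_sub hp.one_lt.le]
        simp
      rw [← this]
      exact_mod_cast e1
    have e6 : (l : ℝ) - 1 ≤ y ^ (s / 2) * (y ^ (s / 4) * (ef l : ℝ)) := by
      rw [e5]
      exact mul_le_mul hr2 (mul_le_mul_of_nonneg_right e2 (Nat.cast_nonneg _))
        (by positivity) (by positivity)
    have e7 : y / 10 ≤ (l : ℝ) - 1 := by linarith
    have e8 : y = y ^ (1 - s) * (y ^ (s / 2) * y ^ (s / 4)) * y ^ (s / 4) := by
      rw [← Real.rpow_add hy0, ← Real.rpow_add hy0, ← Real.rpow_add hy0]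
      nth_rw 1 [← Real.rpow_one y]
      congr 1
      ring
    have e9 : y ^ (1 - s) * (y ^ (s / 2) * y ^ (s / 4)) ≤ y / 10 := by
      have e10 : y ^ (1 - s) * (y ^ (s / 2) * y ^ (s / 4)) * 10 ≤ y := by
        nth_rw 4 [e8]
        exact mul_le_mul_of_nonneg_left h3 (by positivity)
      linarith
    have e11 : y ^ (1 - s) * (y ^ (s / 2) * y ^ (s / 4)) ≤
        (ef l : ℝ) * (y ^ (s / 2) * y ^ (s / 4)) := by
      calc _ ≤ y / 10 := e9
        _ ≤ _ := e7
        _ ≤ _ := e6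
        _ = _ := by ring
    exact le_of_mul_le_mul_right e11 (by positivity)
  have hupp : ∀ l ∈ L1, (ef l : ℝ) * y ^ (s / 4) ≤ 8 * y := by
    intro l hl
    obtain ⟨hp, h9, h8, -⟩ := hL l (hL1' l hl)
    obtain ⟨hr, hr1, hr2, hr3⟩ := hsl l (hL1' l hl)
    have hm : (l - 1) / sl l ≠ 0 := by
      have := Nat.div_pos (Nat.le_of_dvd (by have := hp.two_le; omega) hr3) hr.pos
      omega
    have h6 : ef l ∣ (l - 1) / sl l := by
      rw [hef]
      exact Dvd.intro_left _ (smp_mul_rgh k0 hm)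
    have h7 : ef l ≤ (l - 1) / sl l := Nat.le_of_dvd (Nat.pos_of_ne_zero hm) h6
    have h8' : ef l * sl l ≤ l - 1 := (Nat.mul_le_mul_right _ h7).trans (Nat.div_mul_le_self _ _)
    have h9' : ((ef l * sl l : ℕ) : ℝ) ≤ (l : ℝ) := by
      exact_mod_cast h8'.trans (Nat.sub_le _ _)
    push_cast at h9'
    have h10 : (ef l : ℝ) * y ^ (s / 4) ≤ (ef l : ℝ) * (sl l : ℝ) :=
      mul_le_mul_of_nonneg_left hr1.le (Nat.cast_nonneg _)
    linarith
  have hprm : ∀ l, ∀ q : ℕ, q.Prime → q ∣ ef l → k0 ≤ q := by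
    intro l q hq h
    rw [hef] at h
    exact rgh_prime hq h
  have hne : ∀ l, ef l ≠ 0 := by
    intro l
    rw [hef]
    exact (Nat.lt_of_lt_of_le Nat.zero_lt_one (rgh_pos _ _)).ne'
  -- rich moduli
  obtain ⟨rich, hrich⟩ : ∃ rich : ℕ → Prop, ∀ e, rich e ↔
      y ^ (s / 8) ≤ ((L1.filter (fun l => ef l = e)).card : ℝ) := ⟨_, fun _ => Iff.rfl⟩
  obtain ⟨L2, hL2⟩ : ∃ L2, L2 = L1.filter (fun l => rich (ef l)) := ⟨_, rfl⟩
  obtain ⟨N1, hN1⟩ : ∃ N1, N1 = L1.filter (fun l => ¬ rich (ef l)) := ⟨_, rfl⟩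
  have hcard2 : L2.card + N1.card = L1.card := by
    rw [hL2, hN1]
    exact Finset.card_filter_add_card_filter_not _
  have hy8 : y ^ (s / 8) * y ^ (s / 8) = y ^ (s / 4) := by
    rw [← Real.rpow_add hy0]
    congr 1
    ring
  have hN1c : (N1.card : ℝ) * Real.log y ≤ c / 8 * y := by
    have e1 : N1.card ≤ ⌊y ^ (s / 8)⌋₊ * (N1.image ef).card := by
      refine Finset.card_le_mul_card_image N1 _ fun e he => ?_
      obtain ⟨l, hl, rfl⟩ := Finset.mem_image.mp he
      rw [hN1, Finset.mem_filter] at hl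
      have e2 := hl.2
      rw [hrich, not_le] at e2
      refine Nat.le_floor (le_trans ?_ e2.le)
      refine Nat.cast_le.mpr (Finset.card_le_card fun x hx => ?_)
      rw [Finset.mem_filter, hN1, Finset.mem_filter] at hx
      rw [Finset.mem_filter]
      exact ⟨hx.1.1, hx.2⟩
    have e2 : (N1.image ef).card ≤ ⌊8 * y / y ^ (s / 4)⌋₊ := by
      have : N1.image ef ⊆ Icc 1 ⌊8 * y / y ^ (s / 4)⌋₊ := by
        intro e he
        obtain ⟨l, hl, rfl⟩ := Finset.mem_image.mp he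
        rw [hN1, Finset.mem_filter] at hl
        rw [Finset.mem_Icc]
        refine ⟨Nat.pos_of_ne_zero (hne l), Nat.le_floor ?_⟩
        rw [le_div_iff₀ (by positivity)]
        exact hupp l hl.1
      have := Finset.card_le_card this
      rwa [Nat.card_Icc, Nat.add_sub_cancel] at this
    have e3 : (N1.card : ℝ) ≤ y ^ (s / 8) * (8 * y / y ^ (s / 4)) := by
      calc (N1.card : ℝ) ≤ ((⌊y ^ (s / 8)⌋₊ * (N1.image ef).card : ℕ) : ℝ) := Nat.cast_le.mpr e1
        _ = (⌊y ^ (s / 8)⌋₊ : ℝ) * ((N1.image ef).card : ℝ) := by push_cast; rfl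
        _ ≤ y ^ (s / 8) * (8 * y / y ^ (s / 4)) := by
          refine mul_le_mul (Nat.floor_le (by positivity)) ?_ (Nat.cast_nonneg _) (by positivity)
          exact (Nat.cast_le.mpr e2).trans (Nat.floor_le (by positivity))
    have e4 : y ^ (s / 8) * (8 * y / y ^ (s / 4)) = 8 * y / y ^ (s / 8) := by
      rw [← hy8]
      field_simp
    rw [e4] at e3
    have e5 : (N1.card : ℝ) * Real.log y ≤ 8 * y / y ^ (s / 8) * (c / 64 * y ^ (s / 8)) :=
      mul_le_mul e3 (by linarith) hlog.le (by positivity)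
    have e6 : 8 * y / y ^ (s / 8) * (c / 64 * y ^ (s / 8)) = c / 8 * y := by
      have : y ^ (s / 8) ≠ 0 := by positivity
      field_simp
      ring
    linarith
  have hL2c : 3 / 4 * c * y ≤ (L2.card : ℝ) * Real.log y := by
    have e1 : (L0.card : ℝ) = B.card + (L2.card + N1.card) := by
      rw [← hcard1, ← hcard2]
      push_cast
      rfl
    rw [div_le_iff₀ hlog, e1] at hL0
    nlinarith
  -- maximal family
  obtain ⟨E, hE1, hE2, hE3⟩ := maxfam (L2.image ef)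
  have hEl : ∀ e ∈ E, ∃ l ∈ L1, ef l = e ∧ rich e := by
    intro e he
    obtain ⟨l, hl, rfl⟩ := Finset.mem_image.mp (hE1 he)
    rw [hL2, Finset.mem_filter] at hl
    exact ⟨l, hl.1, rfl, hl.2⟩
  by_cases hbig : y ^ (t / 2) ≤ (E.card : ℝ)
  · refine ⟨E, hbig, hE2, fun e he => ?_⟩
    obtain ⟨l, hl, hle, hr⟩ := hEl e he
    refine ⟨hle ▸ hlow l hl, L1.filter (fun l => ef l = e), ?_, fun l' hl' => ?_⟩
    · rw [hrich] at hr
      exact (Real.rpow_le_rpow_of_exponent_le hy1.le (by linarith)).trans hr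
    · rw [Finset.mem_filter] at hl'
      obtain ⟨hp, h9, h8, -⟩ := hL l' (hL1' l' hl'.1)
      exact ⟨hp, hl'.2 ▸ hdiv l' hl'.1, h9, h8⟩
  · exfalso
    rw [not_le] at hbig
    -- prime factors of the elements of `E`
    have hpf : ∀ e ∈ E, (e.primeFactors.card : ℝ) ≤ 2 / t := by
      intro e he
      obtain ⟨l, hl, rfl, -⟩ := hEl e he
      have e1 : k0 ^ (ef l).primeFactors.card ≤ ef l := pf_card (hne l) (hprm l)
      have e2 : (ef l : ℝ) ≤ y ^ 2 := by
        have e3 := hupp l hl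
        have e4 : (ef l : ℝ) * 1 ≤ (ef l : ℝ) * y ^ (s / 4) :=
          mul_le_mul_of_nonneg_left (by linarith) (Nat.cast_nonneg _)
        nlinarith
      have e3 : (k0 : ℝ) ^ (ef l).primeFactors.card ≤ y ^ 2 := by
        refine le_trans ?_ e2
        exact_mod_cast e1
      have e4 : ((ef l).primeFactors.card : ℝ) * Real.log k0 ≤ 2 * Real.log y := by
        have := Real.log_le_log (pow_pos hkR _) e3
        rw [Real.log_pow, Real.log_pow] at this
        exact_mod_cast this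
      have e5 : ((ef l).primeFactors.card : ℝ) * (t * Real.log y) ≤ 2 * Real.log y :=
        (mul_le_mul_of_nonneg_left hk6 (Nat.cast_nonneg _)).trans e4
      rw [le_div_iff₀ ht]
      refine le_of_mul_le_mul_right ?_ hlog
      linarith
    obtain ⟨Q, hQ⟩ : ∃ Q, Q = E.biUnion (fun e => e.primeFactors) := ⟨_, rfl⟩
    have hQc : (Q.card : ℝ) ≤ y ^ (t / 2) * (2 / t) := by
      calc (Q.card : ℝ) ≤ ((∑ e ∈ E, e.primeFactors.card : ℕ) : ℝ) := by
            rw [hQ]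
            exact Nat.cast_le.mpr Finset.card_biUnion_le
        _ = ∑ e ∈ E, (e.primeFactors.card : ℝ) := by push_cast; rfl
        _ ≤ ∑ _e ∈ E, (2 / t) := Finset.sum_le_sum hpf
        _ = (E.card : ℝ) * (2 / t) := by rw [Finset.sum_const, nsmul_eq_mul]
        _ ≤ _ := mul_le_mul_of_nonneg_right hbig.le (by positivity)
    have hcov : L2 ⊆ Q.biUnion (fun q => L2.filter (fun l => q ∣ l - 1)) := by
      intro l hl
      have hl1 : l ∈ L1 := by
        rw [hL2, Finset.mem_filter] at hl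
        exact hl.1
      have key : ∃ e' ∈ E, ¬ (ef l).Coprime e' := by
        by_cases h : ef l ∈ E
        · refine ⟨ef l, h, fun hco => ?_⟩
          rw [Nat.coprime_self] at hco
          have e1 := hlow l hl1
          rw [hco, Nat.cast_one] at e1
          exact absurd e1 (not_le.mpr (Real.one_lt_rpow hy1 (by linarith)))
        · exact hE3 (ef l) (Finset.mem_image_of_mem _ hl) h
      obtain ⟨e', he', hco⟩ := key
      obtain ⟨q, hq, hq1, hq2⟩ := Nat.Prime.not_coprime_iff_dvd.mp hco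
      rw [Finset.mem_biUnion]
      refine ⟨q, ?_, ?_⟩
      · rw [hQ, Finset.mem_biUnion]
        obtain ⟨l', -, hl', -⟩ := hEl e' he'
        exact ⟨e', he', Nat.mem_primeFactors.mpr ⟨hq, hq2, hl' ▸ hne l'⟩⟩
      · rw [Finset.mem_filter]
        exact ⟨hl, hq1.trans (hdiv l hl1)⟩
    have hfin : (L2.card : ℝ) ≤ y ^ (t / 2) * (2 / t) * (8 * y / y ^ t) := by
      have e1 : (L2.card : ℝ) ≤ ((∑ q ∈ Q, (L2.filter (fun l => q ∣ l - 1)).card : ℕ) : ℝ) :=
        Nat.cast_le.mpr ((Finset.card_le_card hcov).trans Finset.card_biUnion_le)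
      have e2 : ∀ q ∈ Q, ((L2.filter (fun l => q ∣ l - 1)).card : ℝ) ≤ 8 * y / y ^ t := by
        intro q hq
        rw [hQ, Finset.mem_biUnion] at hq
        obtain ⟨e, he, hqe⟩ := hq
        obtain ⟨l', -, hl', -⟩ := hEl e he
        rw [Nat.mem_primeFactors, ← hl'] at hqe
        have hqk : k0 ≤ q := hprm l' q hqe.1 hqe.2.1
        have e3 : (L2.filter (fun l => q ∣ l - 1)).card ≤ ⌊8 * y⌋₊ / q := by
          refine dvd_card L2 _ q fun l hl => ?_
          rw [hL2, Finset.mem_filter] at hl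
          obtain ⟨hp, -, h8, -⟩ := hL l (hL1' l hl.1)
          exact ⟨hp.two_le, Nat.le_floor h8⟩
        calc ((L2.filter (fun l => q ∣ l - 1)).card : ℝ) ≤ ((⌊8 * y⌋₊ / q : ℕ) : ℝ) :=
              Nat.cast_le.mpr e3
          _ ≤ (⌊8 * y⌋₊ : ℝ) / (q : ℝ) := Nat.cast_div_le
          _ ≤ 8 * y / (q : ℝ) :=
              div_le_div_of_nonneg_right (Nat.floor_le (by positivity)) (Nat.cast_nonneg _)
          _ ≤ 8 * y / y ^ t := by
              refine div_le_div_of_nonneg_left (by positivity) (by positivity) (hk1.trans ?_)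
              exact_mod_cast hqk
      calc (L2.card : ℝ) ≤ _ := e1
        _ = ∑ q ∈ Q, ((L2.filter (fun l => q ∣ l - 1)).card : ℝ) := by push_cast; rfl
        _ ≤ ∑ _q ∈ Q, (8 * y / y ^ t) := Finset.sum_le_sum e2
        _ = (Q.card : ℝ) * (8 * y / y ^ t) := by rw [Finset.sum_const, nsmul_eq_mul]
        _ ≤ _ := mul_le_mul_of_nonneg_right hQc (by positivity)
    have ht4 : y ^ t = y ^ (t / 2) * y ^ (t / 2) := by
      rw [← Real.rpow_add hy0]
      congr 1
      ring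
    have hz : 0 < y ^ (t / 2) := by positivity
    have e1 : y ^ (t / 2) * (2 / t) * (8 * y / y ^ t) = 16 * y / (t * y ^ (t / 2)) := by
      rw [ht4]
      field_simp
      ring
    rw [e1, le_div_iff₀ (by positivity)] at hfin
    have e2 : (L2.card : ℝ) * (32 * Real.log y) ≤ (L2.card : ℝ) * (c * t * y ^ (t / 2)) :=
      mul_le_mul_of_nonneg_left h5.le (Nat.cast_nonneg _)
    have e3 : (L2.card : ℝ) * (c * t * y ^ (t / 2)) ≤ c * (16 * y) := by
      have := mul_le_mul_of_nonneg_left hfin hc.le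
      linarith
    have e4 : 0 < c * y := mul_pos hc hy0
    linarith

end MOD50

open MOD50 in
/-- MOD. -/
theorem mod_thm (hS : S_SMP) (hG : S_GLC) : S_MOD := by
  intro σ hσ
  obtain ⟨s, hs⟩ : ∃ s, s = min σ (1 / 5) := ⟨_, rfl⟩
  have hs0 : 0 < s := by rw [hs]; exact lt_min hσ (by norm_num)
  have hs1 : s ≤ σ := by rw [hs]; exact min_le_left _ _
  have hs2 : s ≤ 1 / 5 := by rw [hs]; exact min_le_right _ _
  obtain ⟨c, x1, hc, hG⟩ := hG (s / 4) (s / 2) (by positivity) (by linarith) (by linarith)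
  obtain ⟨C, x2, hC, hS⟩ := hS
  obtain ⟨t, ht⟩ : ∃ t, t = min (1 / 40) (min (s / 4) (c * s / (512 * C))) := ⟨_, rfl⟩
  have ht0 : 0 < t := by
    rw [ht]
    exact lt_min (by norm_num) (lt_min (by positivity) (by positivity))
  have ht1 : t ≤ 1 / 40 := by rw [ht]; exact min_le_left _ _
  have ht2 : t ≤ s / 4 := by rw [ht]; exact (min_le_right _ _).trans (min_le_left _ _)
  have ht3 : t * (512 * C) ≤ c * s := by
    rw [← le_div_iff₀ (by positivity), ht]
    exact (min_le_right _ _).trans (min_le_right _ _)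
  have ev1 := (tendsto_rpow_atTop ht0).eventually_ge_atTop (3 : ℝ)
  have ev2 := (tendsto_rpow_atTop (show 0 < 1 / 20 - t by linarith)).eventually_ge_atTop (2 : ℝ)
  have ev3 := (tendsto_rpow_atTop (show 0 < s / 4 by positivity)).eventually_ge_atTop (10 : ℝ)
  have ev4 := (isLittleO_log_rpow_atTop (show 0 < s / 8 by positivity)).bound
    (show 0 < c / 64 by positivity)
  have ev5 := (isLittleO_log_rpow_atTop (show 0 < t / 2 by positivity)).bound
    (show 0 < c * t / 64 by positivity)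
  obtain ⟨y0, hy0⟩ := Filter.eventually_atTop.mp (ev1.and (ev2.and (ev3.and (ev4.and ev5))))
  refine ⟨t / 2, max 90 (max x1 (max x2 y0)), by positivity, fun y hy => ?_⟩
  simp only [max_le_iff] at hy
  obtain ⟨hy1, hy2, hy3, hy4⟩ := hy
  obtain ⟨h1, h2, h3, h4, h5⟩ := hy0 y hy4
  have hyp : 0 < y := by linarith
  have hlog : 0 < Real.log y := Real.log_pos (by linarith)
  obtain ⟨L0, hL0, hL⟩ := hG y hy2
  rw [Real.norm_of_nonneg hlog.le, Real.norm_of_nonneg (by positivity)] at h4 h5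
  have hzt : 0 < c * t * y ^ (t / 2) := by positivity
  obtain ⟨E, hE1, hE2, hE3⟩ := core hc hC hs0 hs2 ht0 ht2 ht3 hy1 h1 h2 h3 (by linarith)
    (by linarith) hL0 hL (fun k0 hk3 hk4 => hS (8 * y) k0 (by linarith) hk3 hk4)
  refine ⟨E, hE1, hE2, fun e he => ⟨le_trans ?_ (hE3 e he).1, (hE3 e he).2⟩⟩
  exact Real.rpow_le_rpow_of_exponent_le (by linarith) (by linarith)

end Pool.FEW
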